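import Pool.Agent.NAW.Fin

/-!
# MP_549525_al : Navarro's conjecture is equivalent to the Alperin weight conjecture

`Navarro p k G` (file `Pool/Agent/Nav/Defs.lean`) is the equality
`|IBr_Γ(G)| = ∑_{Q ∈ Θ/Γ} |dz(N_Γ(Q)/Q)|` for `G ⊴ Γ`; `ibrInv k G` and `weights p G` are its two
sides. `AWC p k H` and `awcDefect p k H` (file `Pool/Agent/NAW/Stmt.lean`) are the Alperin weight
conjecture for `H` and the difference `a(H)` of its two sides. `IsNC (Theta p G) c` and `Nz c` (file
`Pool/Agent/NAW/Defs.lean`): `c` is a nonempty chain of members of `Θ` normalising each other, and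
`Nz c = N_Γ(c)` is the intersection of their normalisers in `Γ`.
-/

namespace Pool.Agent.Results.MP_549525_al.AWCEquivalence

open Pool.Agent.Nav Pool.Agent.NAW

universe u v

theorem result (p : ℕ) [Fact p.Prime] (k : Type v) [Field k] [IsAlgClosed k] [CharP k p] :
    -- (A) Navarro's conjecture at `p` for all pairs is equivalent to AWC at `p` for all groups,
    ((∀ (Γ : Type u) [Group Γ] [Finite Γ] (G : Subgroup Γ) [G.Normal],
        IsPGroup p (Γ ⧸ G) → Navarro p k G) ↔
      ∀ (H : Type u) [Group H] [Finite H], AWC p k H) ∧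
    -- and to Navarro's conjecture for all pairs with `Γ/G ≅ P`, for any one fixed `p`-group `P`.
    (∀ (P : Type u) [Group P] [Finite P], IsPGroup p P →
      ((∀ (Γ : Type u) [Group Γ] [Finite Γ] (G : Subgroup Γ) [G.Normal],
          Nonempty ((Γ ⧸ G) ≃* P) → Navarro p k G) ↔
        ∀ (H : Type u) [Group H] [Finite H], AWC p k H)) ∧
    ∀ (Γ : Type u) [Group Γ] [Finite Γ] (G : Subgroup Γ) [G.Normal], IsPGroup p (Γ ⧸ G) →
      -- (B) the exact formula
      ((Nat.card Γ : ℤ) * ((ibrInv k G : ℤ) - (weights p G : ℤ)) =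
        ∑ᶠ c ∈ {c : Finset (Subgroup Γ) | IsNC (Theta p G) c},
          (-1 : ℤ) ^ (c.card + 1) *
            ((Nat.card (Nz c) : ℤ) * awcDefect p k (G ⊓ Nz c : Subgroup Γ))) ∧
      -- (C) the local form
      ((∀ c : Finset (Subgroup Γ), IsNC (Theta p G) c → AWC p k (G ⊓ Nz c : Subgroup Γ)) →
        Navarro p k G) ∧
      -- (D) AWC for the proper subgroups of `G` suffices unless `G Z = Γ` for a normal
      -- `p`-subgroup `Z` of `Γ`, and then Navarro's equality is AWC for `G`
      ((∀ Z : Subgroup Γ, Z.Normal → IsPGroup p Z → G ⊔ Z ≠ ⊤) →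
        (∀ H : Subgroup Γ, H < G → AWC p k H) → Navarro p k G) ∧
      (∀ Z : Subgroup Γ, Z.Normal → IsPGroup p Z → G ⊔ Z = ⊤ → (Navarro p k G ↔ AWC p k G)) :=
  ⟨final6 p k, fun P _ _ hP => final5 p k P hP, fun Γ _ _ G _ hp =>
    ⟨final1 p k Γ G hp, final2 p k Γ G hp, final3 p k Γ G hp,
      fun Z hZ hZp h => by
        have := hZ
        exact final4 p k Γ G Z hZp h⟩⟩

end Pool.Agent.Results.MP_549525_al.AWCEquivalence
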