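import Pool.Agent.NAH.Her

/-!
# MP_549525_al : extensions by p-groups and p-perfect groups

`Navarro p k G` (file `Pool/Agent/Nav/Defs.lean`) is the equality
`|IBr_Γ(G)| = ∑_{Q ∈ Θ/Γ} |dz(N_Γ(Q)/Q)|` for `G ⊴ Γ`. `AWC p k H` (file `Pool/Agent/NAW/Stmt.lean`)
is the Alperin weight conjecture for `H` at `p`. `PPerfect p H`: no normal subgroup of `H` has index
`p`; `OpTriv p H`: `1` is the only normal `p`-subgroup of `H` (file `Pool/Agent/Nav/Main3.lean`).
-/

namespace Pool.Agent.Results.MP_549525_al.Hereditary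

open Pool.Agent.Nav Pool.Agent.NAW Pool.Agent.NAH

universe u v

/-- AWC for all subgroups of a normal subgroup `L` of `p`-power index of `Γ` is equivalent to
Navarro's equality for all pairs inside `Γ`; hence Navarro's conjecture at `p` for all pairs is
equivalent to AWC at `p` for the groups `H` without normal subgroups of index `p` and with
`O_p(H) = 1`. -/
theorem result (p : ℕ) [Fact p.Prime] (k : Type v) [Field k] [IsAlgClosed k] [CharP k p] :
    (∀ (Γ : Type u) [Group Γ] [Finite Γ] (L : Subgroup Γ) [L.Normal], IsPGroup p (Γ ⧸ L) →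
      ((∀ H : Subgroup Γ, H ≤ L → AWC p k H) ↔
        ∀ (H : Subgroup Γ) (K : Subgroup H) [K.Normal], IsPGroup p (H ⧸ K) → Navarro p k K)) ∧
    ((∀ (Γ : Type u) [Group Γ] [Finite Γ] (G : Subgroup Γ) [G.Normal],
        IsPGroup p (Γ ⧸ G) → Navarro p k G) ↔
      ∀ (H : Type u) [Group H] [Finite H], PPerfect p H → OpTriv p H → AWC p k H) :=
  ⟨fun Γ _ _ L _ hL => her_iff p k Γ L hL, perf_iff p k⟩

end Pool.Agent.Results.MP_549525_al.Hereditary
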