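import Pool.Agent.NAH.Loc

/-!
# MP_549525_al : a local criterion, unconditional for normal Sylow subgroups

`Navarro p k G` (file `Pool/Agent/Nav/Defs.lean`) is the equality
`|IBr_Γ(G)| = ∑_{Q ∈ Θ/Γ} |dz(N_Γ(Q)/Q)|` for `G ⊴ Γ`; `Theta p G` is the set `Θ` of `p`-subgroups
`Q` of `Γ` with `G Q = Γ`, and `G ⊓ Nm Q` is `N_G(Q)`. `AWC p k X` (file `Pool/Agent/NAW/Stmt.lean`)
is the Alperin weight conjecture for `X` at `p`.
-/

namespace Pool.Agent.Results.MP_549525_al.LocalCriterion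

open Pool.Agent.Nav Pool.Agent.NAW Pool.Agent.NAH

universe u v

/-- Navarro's equality holds for `G ⊴ Γ` if every `N_G(Q)`, `Q ∈ Θ`, has a normal subgroup `L` of
`p`-power index which has a normal Sylow `p`-subgroup, or all of whose subgroups satisfy AWC. -/
theorem result (p : ℕ) [Fact p.Prime] (k : Type v) [Field k] [IsAlgClosed k] [CharP k p]
    (Γ : Type u) [Group Γ] [Finite Γ] (G : Subgroup Γ) [G.Normal] (hp : IsPGroup p (Γ ⧸ G))
    (h : ∀ Q ∈ Theta p G, ∃ (L : Subgroup (G ⊓ Nm Q : Subgroup Γ)) (_ : L.Normal),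
      IsPGroup p ((G ⊓ Nm Q : Subgroup Γ) ⧸ L) ∧
        ((∃ S : Subgroup L, S.Normal ∧ IsPGroup p S ∧ ¬ p ∣ S.index) ∨
          ∀ X : Subgroup L, AWC p k X)) :
    Navarro p k G :=
  loc_or p k Γ G hp h

end Pool.Agent.Results.MP_549525_al.LocalCriterion
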