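import Pool.Agent.Nav.Final

/-!
# MP_549525_al : local reduction, for one pair `G ⊴ Γ`

`Navarro p k G` (file `Pool/Agent/Nav/Defs.lean`) is the equality
`|IBr_Γ(G)| = ∑_{Q ∈ Θ/Γ} |dz(N_Γ(Q)/Q)|` for `G ⊴ Γ`; for `G = Γ` it is the (non-blockwise)
Alperin weight conjecture for `Γ`.
-/

namespace Pool.Agent.Results.MP_549525_al.LocalRankTwo

open Pool.Agent.Nav

universe u v

/-- Let `Γ/G` be a `p`-group. If the Alperin weight conjecture holds for all `H` with
`G ≤ H ≤ Γ`, and Navarro's equality holds for all pairs `K ⊴ H` with `G ≤ K ≤ H ≤ Γ`,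
`O_p(H) ≤ K` and `H/K ≅ C_p × C_p`, then Navarro's equality holds for `G ⊴ Γ`. -/
theorem result (p : ℕ) [Fact p.Prime] (k : Type v) [Field k] [IsAlgClosed k] [CharP k p]
    (Γ : Type u) [Group Γ] [Finite Γ] (G : Subgroup Γ) [G.Normal] (hp : IsPGroup p (Γ ⧸ G))
    (hawc : ∀ H : Subgroup Γ, G ≤ H → Navarro p k (⊤ : Subgroup H))
    (hsec : ∀ (H K : Subgroup Γ) [(K.subgroupOf H).Normal], G ≤ K → K ≤ H →
      (∀ Z : Subgroup H, Z.Normal → IsPGroup p Z → Z ≤ K.subgroupOf H) →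
      Nonempty ((H ⧸ K.subgroupOf H) ≃* Multiplicative (ZMod p × ZMod p)) →
      Navarro p k (K.subgroupOf H)) :
    Navarro p k G := by
  rw [nav_iff p k Γ G hp]
  refine loc_op p Γ G hp ?_ ?_
  · intro H hH
    exact (nav_top_iff p k H).1 (hawc H hH)
  · intro H K _ hGK hKH hZ hc
    exact (nav_iff p k H (K.subgroupOf H) (isPGroup_Cpp p H _ hc)).1 (hsec H K hGK hKH hZ hc)

end Pool.Agent.Results.MP_549525_al.LocalRankTwo
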